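import Pool.Agent.MP_fe71fa_lc.H18.Ultra
import Pool.Agent.MP_fe71fa_lc.H14.Canon
import Pool.Agent.MP_fe71fa_lc.H21.Lat
import Pool.Agent.MP_fe71fa_lc.H21.Tower
import Pool.Agent.MP_fe71fa_lc.H35.Reps

open Pool.Agent.MP_fe71fa_lc Pool.Agent.MP_fe71fa_lc.H18

namespace Pool.Agent.Results.MP_fe71fa_lc.M3Variety

/-- Every `ℵ₀`-algebraic lattice in the variety generated by `M₃` is the interstructure lattice of
an elementary extension of any given countable nonstandard model of `PA`. -/
theorem result (L : Type) [CompleteLattice L] [IsCompactlyGenerated L]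
    (hc : {a : L | IsCompactElement a}.Countable) (hV : InVarM3 L)
    (M : Type) [CommSemiring M] [LinearOrder M] [Countable M] (hM : ModelPA M)
    (hn : IsEmpty (LA.Equiv ℕ M)) :
    ∃ (N : Type) (_ : LA.Structure N) (e : LA.ElementaryEmbedding M N),
      Nonempty ({K : LA.ElementarySubstructure N // ∀ m, e m ∈ K} ≃o L) := by
  refine final_of H14.canon H35.reps (H21.tower H21.lat) L hc hV M hM fun h => hn.false ?_
  have := hM.toIsStrictOrderedRing
  refine ⟨Equiv.ofBijective _ ⟨Nat.cast_injective, h⟩, ?_, ?_⟩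
  · intro n f x
    cases f
    · exact Nat.cast_zero
    · exact Nat.cast_one
    · exact Nat.cast_add _ _
    · exact Nat.cast_mul _ _
  · intro n r x
    cases r
    exact Nat.cast_lt

end Pool.Agent.Results.MP_fe71fa_lc.M3Variety
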